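import Pool.Agent.Helper76.SGA.Goals

/-! Packet SGA-RES2A. -/

set_option autoImplicit false

open MvPolynomial

namespace Pool.Agent.Helper98.SGA

open Pool.Agent.Helper92.Ru Pool.Agent.Helper42.SG Pool.Agent.Helper76.SGA

lemma sum_lower (N o : ℕ) (ho : 2 ≤ o) :
    min (2 * (N : ℝ)) ((o : ℝ) / 2) * ((o : ℝ) / 4) ≤
      ∑ i ∈ Finset.range (2 * N), max 0 (((o : ℝ) - 1) - (i : ℝ) / ((1 : ℕ) : ℝ)) := by
  have ho' : (2 : ℝ) ≤ o := by exact_mod_cast ho
  set K := min (2 * N) ((o + 1) / 2) with hK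
  have h1 : ∑ i ∈ Finset.range K, ((o : ℝ) / 4) ≤
      ∑ i ∈ Finset.range K, max 0 (((o : ℝ) - 1) - (i : ℝ) / ((1 : ℕ) : ℝ)) := by
    apply Finset.sum_le_sum
    intro i hi
    have hi1 := Finset.mem_range.1 hi
    have hi2 : 2 * i + 1 ≤ o := by omega
    have hi3 : 2 * (i : ℝ) + 1 ≤ o := by exact_mod_cast hi2
    refine le_trans ?_ (le_max_right _ _)
    rw [Nat.cast_one, div_one]
    linarith
  have h2 : ∑ i ∈ Finset.range K, max 0 (((o : ℝ) - 1) - (i : ℝ) / ((1 : ℕ) : ℝ)) ≤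
      ∑ i ∈ Finset.range (2 * N), max 0 (((o : ℝ) - 1) - (i : ℝ) / ((1 : ℕ) : ℝ)) := by
    apply Finset.sum_le_sum_of_subset_of_nonneg
    · exact Finset.range_subset_range.2 (min_le_left _ _)
    · intro i _ _
      exact le_max_left _ _
  have h3 : min (2 * (N : ℝ)) ((o : ℝ) / 2) ≤ (K : ℝ) := by
    rw [hK, Nat.cast_min]
    apply min_le_min
    · push_cast
      exact le_rfl
    · have : o ≤ 2 * ((o + 1) / 2) := by omega
      have h4 : (o : ℝ) ≤ 2 * (((o + 1) / 2 : ℕ) : ℝ) := by exact_mod_cast this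
      linarith
  rw [Finset.sum_const, Finset.card_range, nsmul_eq_mul] at h1
  have h5 : min (2 * (N : ℝ)) ((o : ℝ) / 2) * ((o : ℝ) / 4) ≤ (K : ℝ) * ((o : ℝ) / 4) :=
    mul_le_mul_of_nonneg_right h3 (by linarith)
  linarith

theorem res2a : RES2A := by
  intro hSEP hRNZ hRDEG hRHT hRIX hDDV k _ _
  obtain ⟨C, hC, H⟩ := hRHT k 1
  refine ⟨1 + C, by linarith, fun ξ f B o hf h1 hB hP ho hI => ?_⟩
  have hf0 : f ≠ 0 := hf.ne_zero
  obtain ⟨d0, d1, d2, d3, d4⟩ := hDDV k 2 f 1 hf0 h1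
  obtain ⟨-, -, -, -, S, -, -, -, -⟩ := hSEP k 1
  have hN : (sepL k 1 f).natDegree = f.degreeOf 1 := S f
  have hG : (sepL k 1 (pderiv 1 f)).natDegree ≤ f.degreeOf 1 := (S (pderiv 1 f)).le.trans (d2 1)
  have hN1 : (1 : ℝ) ≤ (f.degreeOf 1 : ℝ) := by exact_mod_cast h1
  refine ⟨Polynomial.resultant (sepL k 1 f) (sepL k 1 (pderiv 1 f)) (f.degreeOf 1)
    (f.degreeOf 1), ?_, ?_, ?_, ?_⟩
  · have h := hRNZ (MvPolynomial (Fin 1) k) (sepL k 1 f) (sepL k 1 (pderiv 1 f))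
      ((MulEquiv.irreducible_iff (sepL k 1)).2 hf) (by rw [hN]; exact h1)
      (fun hd => d1 ((map_dvd_iff (sepL k 1)).1 hd)) (by rw [hN]; exact hG)
    rw [hN] at h
    exact h
  · have h := hRDEG k 1 (f.degreeOf 1) (f.degreeOf 0) f (pderiv 1 f) 0 le_rfl (d2 0)
    have h' : ((Polynomial.resultant (sepL k 1 f) (sepL k 1 (pderiv 1 f)) (f.degreeOf 1)
      (f.degreeOf 1)).degreeOf 0 : ℝ) ≤ 2 * f.degreeOf 1 * f.degreeOf 0 := by exact_mod_cast h
    refine h'.trans ?_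
    exact mul_le_mul_of_nonneg_left (hB 0) (by linarith)
  · have h := H f (pderiv 1 f) (f.degreeOf 1) B hf0 h1 (hB 1) hB
      (fun i => le_trans (by exact_mod_cast d2 i) (hB i))
      (fun e => by
        obtain ⟨e', c, hc, he⟩ := d3 e
        exact ⟨e', c, le_trans (by exact_mod_cast hc) (hB 1), he⟩)
    refine h.trans ?_
    apply mul_le_mul_of_nonneg_left _ (by linarith)
    linarith
  · have h := hRIX k 1 (f.degreeOf 1) (fun _ => 1) ξ o (o - 1) f (pderiv 1 f)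
      (fun _ => le_rfl) rfl (d2 1) (by linarith) hI (by
        have h4 := d4 (fun _ => 1) ξ o hI
        rw [Nat.cast_one, div_one] at h4
        exact h4)
    have e1 : (fun h : Fin 1 => ξ (Fin.castSucc h)) = fun _ => ξ 0 := by
      funext i
      have hi : Fin.castSucc i = (0 : Fin 2) := by
        rw [Subsingleton.elim i 0]
        rfl
      rw [hi]
    rw [e1] at h
    intro e he
    exact (sum_lower (f.degreeOf 1) o ho).trans (h e he)

end Pool.Agent.Helper98.SGA
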